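import Pool.Agent.TH990.FU.Ex3
import Pool.Agent.TH990.FU.Tr3
import Pool.Agent.W424.KI.Fin
import Pool.Agent.H443R3.BT.Fin
import Pool.Agent.Results.MP_fe58d8_pr.NaturalCurve
import Pool.Agent.Results.MP_fe58d8_pr.UniformDimension

/-!
# Boundaries of the complementary components of the limits of the exploration path

Critical bond percolation on `δ ℤ²` in a rectangle `D = (-A, B) × (0, H)`, with the counterclockwise
boundary arc from `a = t + i H` to `b = 0` wired and the other one dual-wired. The exploration path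
is parametrised by its number of steps: `Rect.curve` is the piecewise linear curve on `[0, 1]` run
at constant speed, and `Rect.time` is the number of steps times `δ ^ (7/4)`; `Rect.law` is the law
of (curve, time). Weak limits exist along a subsequence of every sequence of meshes. For every weak
limit, almost surely, the union of the boundaries of all components of the complement of the range
of the curve (in the plane), in particular the outer boundary of the range, has Hausdorff dimension
at most `4/3`, and the set of the times at which the curve is on one of these boundaries has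
dimension at most `16/21`.

Definitions: `Pool.Agent.H984R4.NP.Model` (`Rect`, `pos`, `clamp`, `pl`, `X`, `Rect.D`, `Rect.dm`,
`Rect.curve`, `Rect.time`, `Rect.law`), `Pool.Agent.H984R4.NP.Defs` (`Dm`, `Dm.edges`, `Dm.wir`,
`Dm.cfg`, `Dm.walk`, `Dm.len`) and `Pool.Agent.H984R3.Per.Defs` (states, `ae`, `mv`, `rt`, `nxt`,
`orb`).

Used from the starting files: the sharp three-arm bound in annuli (`Pool.Agent.W424.KI.Fin`, with
parts by helper481, helper658 and others), the exploration path library (`H984R4`, `H443R3`) and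
helpers on covering sums (`Pool.Agent.W462.DPL`). New: the passage from complementary components of
the limit to arms of one of the two types (`Pool.Agent.TH990.FU`).
-/

set_option autoImplicit false

namespace Pool.Agent.Results.MP_fe58d8_pr.ComplementFrontiers

open H984N MeasureTheory Filter Topology
open scoped ENNReal

/-- The union of the boundaries of all connected components of the complement of `K`. -/
def sides (K : Set ℂ) : Set ℂ := ⋃ x : ℂ, frontier (connectedComponentIn Kᶜ x)

/-- The outer boundary of `K`: the boundary of the unbounded component of the complement. -/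
def outer (K : Set ℂ) : Set ℂ :=
  frontier {z | z ∉ K ∧ ¬ Bornology.IsBounded (connectedComponentIn Kᶜ z)}

/-- The times at which `f` is in `S`. -/
def times (f : C(unitInterval, ℂ)) (S : Set ℂ) : Set unitInterval := {s | f s ∈ S}

theorem solve {x y : ℝ≥0∞} (h : y = 7 / 4 * x) (hy : y ≤ 4 / 3) : x ≤ 16 / 21 := by
  have h1 : 7 / 4 * x ≤ 4 / 3 := h ▸ hy
  have hx : x ≠ ⊤ := by
    rintro rfl
    rw [ENNReal.mul_top (by simp)] at h1
    exact absurd h1 (not_le.2 (ENNReal.div_lt_top (by norm_num) (by norm_num)))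
  have h2 := ENNReal.toReal_mono (ENNReal.div_lt_top (by norm_num) (by norm_num)).ne h1
  rw [ENNReal.toReal_mul, ENNReal.toReal_div, ENNReal.toReal_div] at h2
  have h3 : x.toReal ≤ 16 / 21 := by
    norm_num at h2
    linarith
  rw [← ENNReal.ofReal_toReal hx]
  refine (ENNReal.ofReal_le_ofReal h3).trans (le_of_eq ?_)
  rw [ENNReal.ofReal_div_of_pos (by norm_num)]
  norm_num

theorem result (R : Rect) :
    (∀ δ : ℕ → ℝ, (∀ i, 0 < δ i) → Tendsto δ atTop (𝓝 0) →
      ∃ φ : ℕ → ℕ, StrictMono φ ∧ ∃ μ : ProbabilityMeasure X,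
        Tendsto (fun i => R.law (δ (φ i))) atTop (𝓝 μ)) ∧
    (∀ δ : ℕ → ℝ, (∀ i, 0 < δ i) → Tendsto δ atTop (𝓝 0) → ∀ μ : ProbabilityMeasure X,
      Tendsto (fun i => R.law (δ i)) atTop (𝓝 μ) →
      ∀ᵐ p ∂(μ : Measure X),
        dimH (sides (Set.range p.1)) ≤ 4 / 3 ∧ dimH (outer (Set.range p.1)) ≤ 4 / 3 ∧
        dimH (times p.1 (sides (Set.range p.1))) ≤ 16 / 21 ∧
        dimH (Set.range p.1 \ sides (Set.range p.1)) = 7 / 4) := by
  obtain ⟨h1, h2⟩ := UniformDimension.result R
  refine ⟨h1, fun δ hδ hlim μ hμ => ?_⟩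
  filter_upwards [h2 δ hδ hlim μ hμ, (NaturalCurve.result R).2.2.2 δ hδ hlim μ hμ,
    H443B.dims R hδ hlim hμ, Pool.Agent.TH990.FU.ex3 Pool.Agent.W424.KI.u3 R hδ hlim hμ]
    with p hp hq hd hA
  obtain ⟨-, -, -, hcl, hdim, -⟩ := hq
  have hrange : dimH (Set.range p.1) = 7 / 4 := by
    have h := hdim 0 1 zero_lt_one
    rwa [show Set.Icc (0 : unitInterval) 1 = Set.univ from Set.eq_univ_of_forall fun x =>
      ⟨unitInterval.nonneg', unitInterval.le_one'⟩, Set.image_univ] at h
  have hne : ∃ s t, p.1 s ≠ p.1 t := by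
    by_contra hcon
    push Not at hcon
    have h1 : Set.range p.1 = {p.1 0} := by
      ext z
      constructor
      · rintro ⟨s, rfl⟩
        exact hcon s 0
      · rintro rfl
        exact ⟨0, rfl⟩
    rw [h1, dimH_singleton] at hrange
    exact absurd hrange.symm (ENNReal.div_pos (by norm_num) (by norm_num)).ne'
  have hall : dimH (⋃ i : ℕ, Pool.Agent.TH990.FU.Acc (1 / ((i:ℝ) + 1)) p.1) ≤ 4 / 3 := by
    have hcov : (⋃ i : ℕ, Pool.Agent.TH990.FU.Acc (1 / ((i:ℝ) + 1)) p.1) ⊆
        (⋃ i : ℕ, Pool.Agent.TH990.FU.Acc (1 / ((i:ℝ) + 1)) p.1 ∩ R.D) ∪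
        (Set.range p.1 ∩ frontier R.D) := by
      intro w hw
      obtain ⟨i, hi⟩ := Set.mem_iUnion.1 hw
      by_cases h3 : w ∈ R.D
      · exact Or.inl (Set.mem_iUnion.mpr ⟨i, hi, h3⟩)
      · refine Or.inr ⟨hi.1, ?_⟩
        obtain ⟨s, rfl⟩ := hi.1
        exact ⟨hcl s, fun h6 => h3 (interior_subset h6)⟩
    refine (dimH_mono hcov).trans ?_
    rw [dimH_union, dimH_iUnion, hd.1]
    refine max_le (iSup_le hA) ?_
    have e23 : ENNReal.ofReal (2/3) = 2/3 := by
      rw [ENNReal.ofReal_div_of_pos (by norm_num)]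
      norm_num
    rw [← Pool.Agent.TH990.FU.e43', ← e23]
    exact ENNReal.ofReal_le_ofReal (by norm_num)
  have hs : dimH (sides (Set.range p.1)) ≤ 4 / 3 :=
    (dimH_mono (Pool.Agent.TH990.FU.frontiers_acc hne)).trans hall
  refine ⟨hs, (dimH_mono (Pool.Agent.TH990.FU.oB_acc hne)).trans hall, ?_,
    Pool.Agent.TH990.FU.dim_diff hrange hs⟩
  refine solve (hp (times p.1 (sides (Set.range p.1)))) ((dimH_mono ?_).trans hs)
  rintro _ ⟨s, hs, rfl⟩
  exact hs

end Pool.Agent.Results.MP_fe58d8_pr.ComplementFrontiers
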