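import Pool.Agent.TH966.DP.Fin
import Pool.Agent.H443R3.BT.Fin
import Pool.Agent.Results.MP_fe58d8_pr.NaturalCurve
import Pool.Agent.Results.MP_fe58d8_pr.UniformDimension

/-!
# The double points of the exploration path

Critical bond percolation on `δ ℤ²` in a rectangle `D = (-A, B) × (0, H)`, with the counterclockwise
boundary arc from `a = t + i H` to `b = 0` wired and the other one dual-wired. The exploration path
is parametrised by its number of steps: `Rect.curve` is the piecewise linear curve on `[0, 1]` run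
at constant speed, and `Rect.time` is the number of steps times `δ ^ (7/4)`; `Rect.law` is the law
of (curve, time). Weak limits exist along a subsequence of every sequence of meshes, and for every
weak limit, almost surely, the set of the points which the curve visits at least twice has Hausdorff
dimension exactly `3/4`, and so has its part in `D` within distance `ρ` of the end point `b`, for
every `ρ > 0`; the set of the times at which the curve is at a double point has dimension `3/7`.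

The lattice part (four-arm bounds, second moment, independence of the scales, deterministic part)
is in the files `W92/DP`, `W347/DPAA`, `W347/DPGood`, `W571/DPad`, `W571/DParms`, `W598/DPplow`,
`W52/DPOne`, `W52/DPTwo`, `W52/DPInd`, `W801/DPdet` and `W462/DPL`; the passage to the limit of the
lower bound is in `TH966/DP`.

Definitions: `Pool.Agent.H984R4.NP.Model` (`Rect`, `pos`, `clamp`, `pl`, `X`, `Rect.D`, `Rect.dm`,
`Rect.curve`, `Rect.time`, `Rect.law`), `Pool.Agent.H984R4.NP.Defs` (`Dm`, `Dm.edges`, `Dm.wir`,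
`Dm.cfg`, `Dm.walk`, `Dm.len`) and `Pool.Agent.H984R3.Per.Defs` (states, `ae`, `mv`, `rt`, `nxt`,
`orb`).
-/

set_option autoImplicit false

namespace Pool.Agent.Results.MP_fe58d8_pr.DoublePoints

open H984N MeasureTheory Filter Topology

/-- The points which a curve visits at least twice. -/
def doublePoints (f : C(unitInterval, ℂ)) : Set ℂ :=
  {z | ∃ s t : unitInterval, s < t ∧ f s = z ∧ f t = z}

/-- The times at which a curve is at a double point. -/
def doubleTimes (f : C(unitInterval, ℂ)) : Set unitInterval := {s | ∃ t, t ≠ s ∧ f t = f s}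

theorem image_doubleTimes (f : C(unitInterval, ℂ)) : f '' doubleTimes f = doublePoints f := by
  ext z
  constructor
  · rintro ⟨s, ⟨t, h1, h2⟩, rfl⟩
    rcases lt_or_gt_of_ne h1 with h | h
    · exact ⟨t, s, h, h2, rfl⟩
    · exact ⟨s, t, h, rfl, h2⟩
  · rintro ⟨s, t, h, h1, h2⟩
    exact ⟨s, ⟨t, h.ne', by rw [h1, h2]⟩, h1⟩

theorem result (R : Rect) :
    (∀ δ : ℕ → ℝ, (∀ i, 0 < δ i) → Tendsto δ atTop (𝓝 0) →
      ∃ φ : ℕ → ℕ, StrictMono φ ∧ ∃ μ : ProbabilityMeasure X,
        Tendsto (fun i => R.law (δ (φ i))) atTop (𝓝 μ)) ∧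
    (∀ δ : ℕ → ℝ, (∀ i, 0 < δ i) → Tendsto δ atTop (𝓝 0) → ∀ μ : ProbabilityMeasure X,
      Tendsto (fun i => R.law (δ i)) atTop (𝓝 μ) →
      ∀ᵐ p ∂(μ : Measure X),
        dimH (doublePoints p.1) = 3 / 4 ∧ dimH (doubleTimes p.1) = 3 / 7 ∧
        ∀ ρ : ℝ, 0 < ρ → dimH (doublePoints p.1 ∩ R.D ∩ Metric.ball 0 ρ) = 3 / 4) := by
  obtain ⟨h1, h2⟩ := UniformDimension.result R
  refine ⟨h1, fun δ hδ hlim μ hμ => ?_⟩
  filter_upwards [h2 δ hδ hlim μ hμ, (NaturalCurve.result R).2.2.2 δ hδ hlim μ hμ,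
    H443B.dims R hδ hlim hμ, Pool.Agent.TH966.DP.upper R hδ hlim hμ,
    Pool.Agent.TH966.DP.lower R hδ hlim hμ] with p hp hq hd hup hlo
  obtain ⟨-, -, -, hcl, hdim, -⟩ := hq
  obtain ⟨d1, -⟩ := hd
  -- the upper bound
  have hupD : dimH (doublePoints p.1 ∩ R.D) ≤ 3 / 4 := by
    have h3 : doublePoints p.1 ∩ R.D ⊆
        ⋃ n : ℕ, (W92.DP.DPt (1 / ((n : ℝ) + 1)) p.1 ∩ R.D) := by
      rintro z ⟨hz, hzD⟩
      obtain ⟨n, hn⟩ := Set.mem_iUnion.mp (Pool.Agent.TH966.DP.dbl_sub hdim hz)
      exact Set.mem_iUnion.mpr ⟨n, hn, hzD⟩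
    refine (dimH_mono h3).trans ?_
    rw [dimH_iUnion]
    exact iSup_le hup
  have hupA : dimH (doublePoints p.1) ≤ 3 / 4 := by
    have h3 : doublePoints p.1 ⊆
        (doublePoints p.1 ∩ R.D) ∪ (Set.range p.1 ∩ frontier R.D) := by
      rintro z ⟨s, t, hst, h4, h5⟩
      by_cases hz : z ∈ R.D
      · exact Or.inl ⟨⟨s, t, hst, h4, h5⟩, hz⟩
      · refine Or.inr ⟨⟨s, h4⟩, ?_⟩
        rw [frontier]
        refine ⟨h4 ▸ hcl s, fun h6 => hz (interior_subset h6)⟩
    refine (dimH_mono h3).trans ?_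
    rw [dimH_union, d1]
    exact max_le hupD Pool.Agent.TH966.DP.two_thirds_le
  -- the lower bound
  have hloc : ∀ ρ : ℝ, 0 < ρ → 3 / 4 ≤ dimH (doublePoints p.1 ∩ R.D ∩ Metric.ball 0 ρ) := by
    intro ρ hρ
    obtain ⟨k, hk⟩ := exists_nat_one_div_lt hρ
    apply Pool.Agent.TH966.DP.three_quarters_le
    intro n
    refine (hlo n k).trans (dimH_mono ?_)
    rintro z ⟨hzD, hz1, η, hη, hz2⟩
    exact ⟨⟨Pool.Agent.TH966.DP.DPt_sub_dbl hη p.1 hz2, hzD⟩, Metric.mem_ball.mpr (hz1.trans hk)⟩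
  have hall : dimH (doublePoints p.1) = 3 / 4 :=
    le_antisymm hupA ((hloc 1 one_pos).trans
      (dimH_mono (Set.inter_subset_left.trans Set.inter_subset_left)))
  refine ⟨hall, ?_, fun ρ hρ => le_antisymm ?_ (hloc ρ hρ)⟩
  · apply Pool.Agent.TH966.DP.solve
    rw [← hp, image_doubleTimes, hall]
  · exact (dimH_mono Set.inter_subset_left).trans hupD

end Pool.Agent.Results.MP_fe58d8_pr.DoublePoints
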