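import Pool.Agent.TH992.T.Final
import Pool.Agent.H984R3.Per.UpPi
import Pool.Agent.H984R3.Per.LowEV
import Pool.Agent.H985R3.TA.Main
import Pool.Agent.H985R3.TA.STA

/-!
# Tails of the duration of the exploration path in the natural parametrisation

Critical bond percolation on `δ ℤ²` in a rectangle `D = (-A, B) × (0, H)`, exploration path from
`a = t + i H` to `b = 0` between the wired boundary arc and the dual-wired one. Its duration in the
natural parametrisation is `R.time δ F = δ ^ (7/4) * (number of steps)`.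

The probability that the duration is at least `x` is `exp (- Θ (x ^ 8))`, uniformly in the mesh,
for all `1 ≤ x ≤ c δ ^ (-1/4)` (the duration is always at most `C δ ^ (-1/4)`), and the duration of
every subsequential scaling limit has the same tail.

Definitions: `Pool.Agent.H984R4.NP.Model` (`Rect`, `X`, `Rect.dm`, `Rect.time`, `Rect.law`,
`Rect.prob`), `Pool.Agent.H984R4.NP.Defs` (`Dm`, `Dm.edges`, `Dm.cfg`, `Dm.walk`, `Dm.len`) and
`Pool.Agent.H984R3.Per.Defs` (states, `nxt`, `orb`).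
-/

namespace Pool.Agent.Results.MP_fe58d8_pr.DurationTail

open H984N MeasureTheory Filter Topology

/-- The arm bounds in the form used below. -/
theorem inputs : (∃ c : ℝ, 0 < c ∧ H984P.LowA c (1/4)) ∧
    (∃ C : ℝ, 0 < C ∧ H342P.TwoUp C (1/4)) ∧ (∃ C : ℝ, 0 < C ∧ AnnUp C) := by
  refine ⟨?_, ?_, ?_⟩
  · obtain ⟨B, m0, κ, hκ, h⟩ := H985T.EV_lower
    obtain ⟨c, hc, h2⟩ := H984P.lowA_of_EV (B := B) (m0 := m0) (s := 1/4) hκ (by norm_num)
      (fun m hm => by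
        obtain ⟨ρ, c, s, c', f0, h1, h2, h3⟩ := h m hm
        exact ⟨ρ, c, s, c', f0, h2, h1, h3⟩)
    exact ⟨c, hc, h2⟩
  · obtain ⟨C, hC, h⟩ := H985T.pi2_upper
    exact ⟨C, hC, H984P.twoUp_of_pi2 hC (by norm_num) h⟩
  · obtain ⟨C, hC, h⟩ := H985T.st_A
    exact ⟨C, hC, fun r R hr hR c1 c2 S => h r R hr hR c1 c2 S⟩

theorem result (R : Rect) : ∃ c C δ0 : ℝ, 0 < c ∧ 0 < C ∧ 0 < δ0 ∧
    (∀ δ : ℝ, 0 < δ → δ ≤ δ0 →
      (∀ F : Finset H974.Edg, F ⊆ (R.dm δ).edges → R.time δ F ≤ C * δ ^ (-(1/4) : ℝ)) ∧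
      (∀ x : ℝ, 0 ≤ x → R.prob δ (fun F => x ≤ R.time δ F) ≤ C * Real.exp (-(c * x ^ 8))) ∧
      ∀ x : ℝ, 1 ≤ x → x ≤ c * δ ^ (-(1/4) : ℝ) →
        Real.exp (-(C * x ^ 8)) ≤ R.prob δ (fun F => x ≤ R.time δ F)) ∧
    (∀ δ : ℕ → ℝ, (∀ i, 0 < δ i) → Tendsto δ atTop (𝓝 0) → ∀ μ : ProbabilityMeasure X,
      Tendsto (fun i => R.law (δ i)) atTop (𝓝 μ) → ∀ x : ℝ, 1 ≤ x →
      ENNReal.ofReal (Real.exp (-(C * x ^ 8))) ≤ (μ : Measure X) {p | x ≤ p.2} ∧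
      (μ : Measure X) {p | x ≤ p.2} ≤ ENNReal.ofReal (C * Real.exp (-(c * x ^ 8)))) := by
  obtain ⟨⟨c, hc, hL⟩, ⟨C, hC, hU⟩, C2, hC2, hA⟩ := inputs
  obtain ⟨c', C', δ0, h1, h2, h3, h4⟩ := TH992.T.final_of hc hL hC hU hC2 hA R
  refine ⟨c' / 256, C', δ0, by positivity, h2, h3, fun δ hδ hδ' => ?_, ?_⟩
  · obtain ⟨g1, g2, g3⟩ := h4 δ hδ hδ'
    refine ⟨g1, fun x hx => (g2 x hx).trans ?_, fun x hx hx2 => g3 x hx (hx2.trans ?_)⟩
    · refine mul_le_mul_of_nonneg_left (Real.exp_le_exp.mpr ?_) h2.le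
      have : 0 ≤ c' * x ^ 8 := by positivity
      linarith
    · refine mul_le_mul_of_nonneg_right ?_ (Real.rpow_nonneg hδ.le _)
      linarith
  · intro δ hδ hlim μ hμ x hx
    exact TH992.T.final_lim h1 h3 (fun δ hδ hδ' => (h4 δ hδ hδ').2) hδ hlim hμ hx

end Pool.Agent.Results.MP_fe58d8_pr.DurationTail
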