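import Pool.Agent.TH966.HD.Fin
import Pool.Agent.Results.MP_fe58d8_pr.UniformDimension

/-!
# Hitting probabilities of fixed sets, and times spent there, for the exploration path

Critical bond percolation on `δ ℤ²` in a rectangle `D = (-A, B) × (0, H)`, with the counterclockwise
boundary arc from `a = t + i H` to `b = 0` wired and the other one dual-wired. The exploration path
is parametrised by its number of steps: `Rect.curve` is the piecewise linear curve on `[0, 1]` run
at constant speed, and `Rect.time` is the number of steps times `δ ^ (7/4)`; `Rect.law` is the law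
of (curve, time). Weak limits exist along a subsequence of every sequence of meshes. For every weak
limit `μ`:

* for every fixed sigma-compact set `S` in `D` (for instance every curve, every closed and every
  open subset of `D`) the essential supremum of the Hausdorff dimension of the set of times at which
  the curve is in `S` is exactly `(4/7) (dim S - 1/4)`, and the essential supremum of the dimension
  of the part of the trace in `S` is exactly `dim S - 1/4` (differences in `[0, ∞]` are truncated);
* for every compact `K` in `D` there is a constant `c > 0`, the same for all weak limits and all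
  subsets of `K`, such that the curve meets every compact subset `S` of `K` with probability at
  least `c` times the capacity of `S` of order `1/4` (the supremum, over all probability measures
  `ν` on `S`, of the inverse of the energy `∬ |x - y| ^ (-1/4) dν dν`).

Definitions: `Pool.Agent.H984R4.NP.Model` (`Rect`, `pos`, `clamp`, `pl`, `X`, `Rect.D`, `Rect.dm`,
`Rect.curve`, `Rect.time`, `Rect.law`), `Pool.Agent.H984R4.NP.Defs` (`Dm`, `Dm.edges`, `Dm.wir`,
`Dm.cfg`, `Dm.walk`, `Dm.len`) and `Pool.Agent.H984R3.Per.Defs` (states, `ae`, `mv`, `rt`, `nxt`,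
`orb`).
-/

set_option autoImplicit false

namespace Pool.Agent.Results.MP_fe58d8_pr.HittingDimension

open H984N MeasureTheory Filter Topology
open scoped ENNReal

theorem result (R : Rect) :
    (∀ δ : ℕ → ℝ, (∀ i, 0 < δ i) → Tendsto δ atTop (𝓝 0) →
      ∃ φ : ℕ → ℕ, StrictMono φ ∧ ∃ μ : ProbabilityMeasure X,
        Tendsto (fun i => R.law (δ (φ i))) atTop (𝓝 μ)) ∧
    (∀ δ : ℕ → ℝ, (∀ i, 0 < δ i) → Tendsto δ atTop (𝓝 0) → ∀ μ : ProbabilityMeasure X,
      Tendsto (fun i => R.law (δ i)) atTop (𝓝 μ) →
      ∀ S : Set ℂ, S ⊆ R.D → IsSigmaCompact S →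
        essSup (fun p : X => dimH {s : unitInterval | p.1 s ∈ S}) (μ : Measure X) =
          4 / 7 * (dimH S - 1 / 4) ∧
        essSup (fun p : X => dimH (Set.range p.1 ∩ S)) (μ : Measure X) = dimH S - 1 / 4) ∧
    (∀ K : Set ℂ, IsCompact K → K ⊆ R.D → ∃ c : ℝ, 0 < c ∧
      ∀ δ : ℕ → ℝ, (∀ i, 0 < δ i) → Tendsto δ atTop (𝓝 0) → ∀ μ : ProbabilityMeasure X,
        Tendsto (fun i => R.law (δ i)) atTop (𝓝 μ) →
        ∀ S : Set ℂ, IsCompact S → S ⊆ K → ∀ ν : Measure ℂ, IsProbabilityMeasure ν → ν Sᶜ = 0 →
          ENNReal.ofReal c / (∫⁻ x, ∫⁻ y, (edist x y) ^ (-(1 / 4) : ℝ) ∂ν ∂ν) ≤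
            (μ : Measure X) {p | ∃ s : unitInterval, p.1 s ∈ S}) := by
  obtain ⟨h1, h2⟩ := UniformDimension.result R
  refine ⟨h1, fun δ hδ hlim μ hμ S hSD hS => ?_, fun K hK hKD => ?_⟩
  · have h3 := TH966.HD.ess_trace R hδ hlim hμ hS hSD
    have h4 : (fun p : X => dimH (TH966.HD.tr p ∩ S)) =ᵐ[(μ : Measure X)]
        fun p : X => 7 / 4 * dimH {s : unitInterval | p.1 s ∈ S} := by
      filter_upwards [h2 δ hδ hlim μ hμ] with p hp
      have e : p.1 '' {s : unitInterval | p.1 s ∈ S} = Set.range p.1 ∩ S :=
        Set.image_preimage_eq_range_inter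
      have h5 := hp {s : unitInterval | p.1 s ∈ S}
      rw [e] at h5
      exact h5
    refine ⟨?_, h3⟩
    rw [essSup_congr_ae h4, ENNReal.essSup_const_mul] at h3
    have e2 : (4 / 7 : ℝ≥0∞) * (7 / 4) = 1 := by
      have a1 : (4 / 7 : ℝ≥0∞) = ENNReal.ofReal (4 / 7) := by
        rw [ENNReal.ofReal_div_of_pos (by norm_num)]; norm_num
      have a2 : (7 / 4 : ℝ≥0∞) = ENNReal.ofReal (7 / 4) := by
        rw [ENNReal.ofReal_div_of_pos (by norm_num)]; norm_num
      rw [a1, a2, ← ENNReal.ofReal_mul (by norm_num)]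
      norm_num
    rw [← h3, ← mul_assoc, e2, one_mul]
  · exact TH966.HD.cap R hK hKD

end Pool.Agent.Results.MP_fe58d8_pr.HittingDimension
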